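import Pool.Agent.Q16.CL.FlxL0

/-!
Project CL, job CL-FLX: the terms of the local energy identity at one time, local form.
-/

set_option autoImplicit false

open MeasureTheory Set Metric Filter Topology
open scoped ContDiff
open H459R3.NS Pool.Agent.W268.NS Pool.Agent.Q67.VD
open Pool.Agent.Q85.CC Pool.Agent.Q85.CL Pool.Agent.Q16.CC

namespace Pool.Agent.Q16.CL

/-- the velocity bound with the constant `C` -/
def VelC (C : ℝ) : Prop := ∀ (v : V → V) (a : V) (K ρ r : ℝ), SM v →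
  DFO (ball a ρ) v → 0 ≤ K → 0 < r → r ≤ ρ / 4 → MorB K a ρ (om v) → ∀ y, ‖y - a‖ ≤ ρ / 2 → ∀ i,
    |v y i| ≤ C * (pot r (om v) y + K / r
      + √((∫ z in closedBall a ρ, W221.NS.nsq v z) / ρ ^ 3)) ∧
    |∫ z, W221.NS.th z * v (y + r • z) i|
      ≤ C * (K / r + √((∫ z in closedBall a ρ, W221.NS.nsq v z) / ρ ^ 3))

/-- the decomposition with the constant `C` -/
def DecC (C : ℝ) : Prop := ∀ (ρ L : ℝ) (f : V → ℝ) (G : Fin 3 → V → ℝ) (a : V),
  0 < ρ → ρ ≤ L → ContDiff ℝ ∞ f → (∀ i, ContDiff ℝ ∞ (G i)) →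
  (∀ x ∈ ball a (3 * L), lap f x = ∑ i, pd i (G i) x) →
    ∃ f₂ : V → ℝ, ContDiff ℝ ∞ f₂ ∧
      (∀ x ∈ closedBall a L, |f x - f₂ x| ≤ C * ∑ i, pot ρ (G i) x) ∧
      ∀ x ∈ closedBall a L, ∀ j, |pd j f₂ x| ≤
        C * ((∑ i, far ρ L (G i) x) + (∫ z in closedBall (0 : V) L, |f (x + z)|) / L ^ 4)

theorem cross_smooth {v : V → V} (hv : SM v) (i : Fin 3) :
    ContDiff ℝ ∞ (fun y => crossProduct (v y) (vort v y) i) := by
  have h : ∀ j k l m : Fin 3, ContDiff ℝ ∞ fun y => v y j * vort v y k - v y l * vort v y m := fun j k l m =>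
    ((hv j).mul (sm_vortL hv k)).sub ((hv l).mul (sm_vortL hv m))
  have e : ∀ y, crossProduct (v y) (vort v y) i = ![v y 1 * vort v y 2 - v y 2 * vort v y 1,
      v y 2 * vort v y 0 - v y 0 * vort v y 2, v y 0 * vort v y 1 - v y 1 * vort v y 0] i := fun y => by
    rw [cross_apply]
  simp only [e]
  fin_cases i
  · exact h 1 2 2 1
  · exact h 2 0 0 2
  · exact h 0 1 1 0

theorem gsq_contL {v : V → V} (hv : SM v) : Continuous (W221.NS.gsq v) := by
  unfold W221.NS.gsq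
  exact continuous_finsetSum _ fun i _ => continuous_finsetSum _ fun j _ => (pd_contL (hv i) j).pow 2

theorem int_om_sqL {v : V → V} (hv : SM v) (x : V) (R : ℝ) :
    ∫ y in closedBall x R, om v y ^ 2 ≤ 2 * W221.NS.B2 x R v := by
  unfold W221.NS.B2
  rw [← setIntegral_congr_set (ball_ae x R), ← integral_const_mul]
  refine setIntegral_mono_on (integrableOn_ball ((om_contL hv).pow 2) x R)
    (integrableOn_ball (continuous_const.mul (gsq_contL hv)) x R) measurableSet_closedBall fun y _ => om_sq_le v y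

/-- the three terms of the near estimate -/
noncomputable def NT (f : V → ℝ) (x : V) (s A : ℝ) : ℝ :=
  (∫ y in closedBall x (4 * s), (pot s f y + A / s) ^ 2) / s ^ 2
      + (∫ y in closedBall x (4 * s), (pot s f y + A / s) *
          pot s (fun z => f z * (pot s f z + A / s)) y) / s
      + (∫ y in closedBall x (4 * s), f y * (pot s f y + A / s)) / s

theorem master {CV CD : ℝ} (hCV : 0 < CV) (hVel : VelC CV) (hCD : 0 < CD) (hDec : DecC CD) {D K H ρ : ℝ} (hD : 0 < D)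
    (hK : 0 ≤ K) (hρ : 0 < ρ) {v : V → V} {q : V → ℝ} {m Q : ℝ} {x : V} (hv : SM v)
    (hq : ContDiff ℝ ∞ q) (hdf : DFO (ball x ρ) v)
    (hlap : ∀ y ∈ ball x ρ, lap q y = ∑ i, pd i (fun z => crossProduct (v z) (vort v z) i) y)
    (hMor : MorB K x ρ (om v)) (hE : √((∫ z in closedBall x ρ, W221.NS.nsq v z) / ρ ^ 3) ≤ H)
    (hQ : ∫ y in closedBall x ρ, |q y - m| ≤ Q) {n : ℕ} (hn : 6 ≤ n) {φ : V → ℝ} (hφ : ContDiff ℝ ∞ φ)
    (hsupp : ∀ y, φ y ≠ 0 → ‖y - x‖ ≤ 2 * (ρ / 2 ^ n)) (hpd : ∀ y i, |pd i φ y| ≤ D / (ρ / 2 ^ n))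
    (hlapφ : ∀ y, |lap φ y| ≤ D / (ρ / 2 ^ n) ^ 2) {A X : ℕ → ℝ} (hA0 : ∀ j, 0 ≤ A j)
    (hA : ∀ j ≤ n - 3, K / (2 ^ j * (ρ / 2 ^ n)) + H ≤ A j / (2 ^ j * (ρ / 2 ^ n)))
    (hX : ∀ j ≤ n - 3, NT (om v) x (2 ^ j * (ρ / 2 ^ n)) (A j) ≤ X j) :
    |∫ y, W221.NS.nsq v y * lap φ y| + |2 * ∫ y, q y * W221.NS.adv v φ y| +
      (∫ y in closedBall x (2 * (ρ / 2 ^ n)), W221.NS.nsq v y) / (ρ / 2 ^ n) ^ 2 ≤
    (3 * CV ^ 2 * (D + 1) + 36 * CD * CV ^ 2 * D) * X 0 + 36 * CV * (72 * K + 64 * A 0) * D * CD *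
      (48 * CV * (∑ j ∈ Finset.range (n - 2), (1 / 4 : ℝ) ^ j * X j) + (ρ / 2 ^ n) ^ 2 * (Q / (ρ / 8) ^ 4)) := by
  obtain ⟨r, hrdef⟩ : ∃ r : ℝ, r = ρ / 2 ^ n := ⟨_, rfl⟩
  rw [← hrdef] at hsupp hpd hlapφ hA hX ⊢
  have hr : 0 < r := by rw [hrdef]; positivity
  have h2n : ρ = 2 ^ n * r := by rw [hrdef]; field_simp
  obtain ⟨f, hf⟩ : ∃ f : V → ℝ, f = om v := ⟨_, rfl⟩
  rw [← hf] at hX
  have hfc : Continuous f := by rw [hf]; exact om_contL hv
  have hf0 : ∀ y, 0 ≤ f y := fun y => by rw [hf]; exact Pool.Agent.Q199.VD.om_nonneg v y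
  -- the majorants
  obtain ⟨w, hw⟩ : ∃ w : ℕ → V → ℝ, w = fun j y => pot (2 ^ j * r) f y + A j / (2 ^ j * r) := ⟨_, rfl⟩
  have hwc : ∀ j, Continuous (w j) := fun j => by rw [hw]; exact (pot_contL hfc _).add continuous_const
  have hw0 : ∀ j, ∀ y, 0 ≤ w j y := fun j y => by
    rw [hw]
    exact add_nonneg (pot_nonneg f _ y) (div_nonneg (hA0 j) (by positivity))
  -- the scales
  have hscale : ∀ j ≤ n - 3, 8 * (2 ^ j * r) ≤ ρ := by
    intro j hj
    have h1 : (2 : ℝ) ^ j * 8 ≤ 2 ^ n := by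
      have : (2 : ℝ) ^ j * 2 ^ 3 ≤ 2 ^ n := by
        rw [← pow_add]
        exact pow_le_pow_right₀ (by norm_num) (by omega)
      linarith
    rw [h2n]
    nlinarith
  have hvw : ∀ j ≤ n - 3, ∀ y ∈ closedBall x (ρ / 2), ∀ i, |v y i| ≤ CV * w j y := by
    intro j hj y hy i
    have hs : 0 < 2 ^ j * r := by positivity
    have hs4 : 2 ^ j * r ≤ ρ / 4 := by linarith [hscale j hj]
    rw [mem_closedBall, dist_eq_norm] at hy
    refine ((hVel v x K ρ (2 ^ j * r) hv hdf hK hs hs4 hMor y hy i).1).trans ?_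
    rw [hw, ← hf]
    apply mul_le_mul_of_nonneg_left _ hCV.le
    have := hA j hj
    simp only
    linarith
  obtain ⟨F, hF⟩ : ∃ F : ℕ → ℝ, F = X := ⟨_, rfl⟩
  have hfw : ∀ j, Continuous fun y => f y * w j y := fun j => hfc.mul (hwc j)
  have hnear : ∀ j ≤ n - 3,
      (∫ y in closedBall x (4 * (2 ^ j * r)), w j y ^ 2) / (2 ^ j * r) ^ 2 ≤ X j ∧
      (∫ y in closedBall x (4 * (2 ^ j * r)), w j y * pot (2 ^ j * r) (fun z => f z * w j z) y) /
        (2 ^ j * r) ≤ X j ∧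
      (∫ y in closedBall x (4 * (2 ^ j * r)), f y * w j y) / (2 ^ j * r) ≤ X j ∧ 0 ≤ X j := by
    intro j hj
    have hs : 0 < 2 ^ j * r := by positivity
    have h1 := hX j hj
    have e1 : ∀ y, pot (2 ^ j * r) f y + A j / (2 ^ j * r) = w j y := fun y => by rw [hw]
    unfold NT at h1
    simp only [e1] at h1
    have t1 : 0 ≤ (∫ y in closedBall x (4 * (2 ^ j * r)), w j y ^ 2) / (2 ^ j * r) ^ 2 :=
      div_nonneg (integral_nonneg fun y => sq_nonneg _) (by positivity)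
    have t2 : 0 ≤ (∫ y in closedBall x (4 * (2 ^ j * r)), w j y *
        pot (2 ^ j * r) (fun z => f z * w j z) y) / (2 ^ j * r) :=
      div_nonneg (integral_nonneg fun y => mul_nonneg (hw0 _ y) (pot_nonneg _ _ _)) hs.le
    have t3 : 0 ≤ (∫ y in closedBall x (4 * (2 ^ j * r)), f y * w j y) / (2 ^ j * r) :=
      div_nonneg (integral_nonneg fun y => mul_nonneg (hf0 y) (hw0 _ y)) hs.le
    exact ⟨by linarith, by linarith, by linarith, by linarith⟩
  obtain ⟨n1, n2, n3, n4⟩ := hnear 0 (Nat.zero_le _)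
  have hvw0 := hvw 0 (Nat.zero_le _)
  rw [pow_zero, one_mul] at n1 n2
  have h8r : 8 * r ≤ ρ := by
    have := hscale 0 (Nat.zero_le _)
    rwa [pow_zero, one_mul] at this
  have hrρ : r ≤ ρ := by linarith
  obtain ⟨NN, hNN⟩ : ∃ NN : ℝ, NN = X 0 := ⟨_, rfl⟩
  rw [← hNN] at n1 n2 n4
  have hsub : closedBall x (2 * r) ⊆ closedBall x (4 * r) := closedBall_subset_closedBall (by linarith)
  have hsub4 : closedBall x (4 * r) ⊆ closedBall x (ρ / 2) := closedBall_subset_closedBall (by linarith)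
  have hvc : ∀ i, Continuous fun y => v y i := fun i => (hv i).continuous
  -- |v|² on the ball
  have hnsq : ∀ y ∈ closedBall x (ρ / 2), W221.NS.nsq v y ≤ 3 * CV ^ 2 * w 0 y ^ 2 := by
    intro y hy
    unfold W221.NS.nsq
    have h1 : ∀ i ∈ (Finset.univ : Finset (Fin 3)), v y i ^ 2 ≤ (CV * w 0 y) ^ 2 := fun i _ => by
      rw [← sq_abs (v y i)]
      exact pow_le_pow_left₀ (abs_nonneg _) (hvw0 y hy i) 2
    refine (Finset.sum_le_sum h1).trans ?_
    rw [Finset.sum_const, Finset.card_univ, Fintype.card_fin, nsmul_eq_mul]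
    push_cast
    linarith
  have hnsq0 : ∀ y, 0 ≤ W221.NS.nsq v y := fun y => Finset.sum_nonneg fun i _ => sq_nonneg _
  have hI2 : ∫ y in closedBall x (2 * r), W221.NS.nsq v y ≤ 3 * CV ^ 2 * (r ^ 2 * NN) := by
    have h1 : ∫ y in closedBall x (2 * r), W221.NS.nsq v y ≤ ∫ y in closedBall x (4 * r), 3 * CV ^ 2 * w 0 y ^ 2 := by
      refine (setIntegral_mono_set (integrableOn_ball (nsq_contL hv) _ _) (Eventually.of_forall hnsq0)
        (Eventually.of_forall hsub)).trans ?_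
      exact setIntegral_mono_on (integrableOn_ball (nsq_contL hv) _ _)
        (integrableOn_ball (continuous_const.mul ((hwc 0).pow 2)) _ _) measurableSet_closedBall
        fun y hy => hnsq y (hsub4 hy)
    rw [integral_const_mul] at h1
    refine h1.trans (mul_le_mul_of_nonneg_left ?_ (by positivity))
    rw [div_le_iff₀ (by positivity)] at n1
    linarith
  have hT3 : (∫ y in closedBall x (2 * r), W221.NS.nsq v y) / r ^ 2 ≤ 3 * CV ^ 2 * NN := by
    rw [div_le_iff₀ (by positivity)]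
    linarith
  have hT1 : |∫ y, W221.NS.nsq v y * lap φ y| ≤ 3 * CV ^ 2 * D * NN := by
    have h1 := int_off (F := fun y => W221.NS.nsq v y * lap φ y) (g := fun y => D / r ^ 2 * W221.NS.nsq v y)
      (x := x) (R := 2 * r) (fun y hy => by rw [lap_off hsupp hy, mul_zero])
      (integrableOn_ball (continuous_const.mul (nsq_contL hv)) _ _) (fun y _ => by
        rw [abs_mul, abs_of_nonneg (hnsq0 y), mul_comm]
        exact mul_le_mul_of_nonneg_right (hlapφ y) (hnsq0 y))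
    rw [integral_const_mul] at h1
    refine h1.trans ?_
    calc D / r ^ 2 * ∫ y in closedBall x (2 * r), W221.NS.nsq v y ≤ D / r ^ 2 * (3 * CV ^ 2 * (r ^ 2 * NN)) := by
          gcongr
      _ = 3 * CV ^ 2 * D * NN := by field_simp
  -- the transport term
  have hadvc : Continuous (W221.NS.adv v φ) := by
    unfold W221.NS.adv
    refine continuous_finsetSum _ fun i _ => (hvc i).mul ?_
    exact (hφ.continuous_fderiv (by norm_num)).clm_apply continuous_const
  have hadv0 : ∀ y, y ∉ closedBall x (2 * r) → W221.NS.adv v φ y = 0 := by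
    intro y hy
    unfold W221.NS.adv
    exact Finset.sum_eq_zero fun j _ => by rw [pd_off hsupp hy, mul_zero]
  have hadv : ∀ y ∈ closedBall x (2 * r), |W221.NS.adv v φ y| ≤ 3 * CV * D / r * w 0 y := by
    intro y hy
    unfold W221.NS.adv
    refine (Finset.abs_sum_le_sum_abs _ _).trans ?_
    have h1 : ∀ j ∈ (Finset.univ : Finset (Fin 3)), |v y j * pd j φ y| ≤ (CV * w 0 y) * (D / r) := fun j _ => by
      rw [abs_mul]
      exact mul_le_mul (hvw0 y (hsub4 (hsub hy)) j) (hpd y j) (abs_nonneg _) (mul_nonneg hCV.le (hw0 0 y))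
    refine (Finset.sum_le_sum h1).trans (le_of_eq ?_)
    rw [Finset.sum_const, Finset.card_univ, Fintype.card_fin, nsmul_eq_mul]
    push_cast
    ring
  have hcs : HasCompactSupport φ := cs_of hsupp
  have hadvcs : HasCompactSupport (W221.NS.adv v φ) := by
    refine HasCompactSupport.intro (isCompact_closedBall x (2 * r)) hadv0
  have hadvI : ∫ y, W221.NS.adv v φ y = 0 := by
    unfold W221.NS.adv
    have hint : ∀ j ∈ (Finset.univ : Finset (Fin 3)), Integrable fun y => v y j * pd j φ y := fun j _ => by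
      refine ((hvc j).mul ((hφ.continuous_fderiv (by norm_num)).clm_apply
        continuous_const)).integrable_of_hasCompactSupport ?_
      exact HasCompactSupport.mul_left (hcs.fderiv_apply (𝕜 := ℝ) _)
    rw [integral_finsetSum _ hint]
    have h1 : ∀ j : Fin 3, ∫ y, v y j * pd j φ y = -∫ y, φ y * pd j (fun z => v z j) y := by
      intro j
      rw [Pool.Agent.Q199.VD.ibp_cut (hφ.of_le (by norm_cast)) hcs ((hv j).of_le (by norm_cast)) j, neg_neg]
      congr 1
      funext y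
      ring
    simp only [h1]
    rw [Finset.sum_neg_distrib, ← integral_finsetSum]
    · have h2 : ∀ y, ∑ j, φ y * pd j (fun z => v z j) y = 0 := fun y => by
        rw [← Finset.mul_sum]
        by_cases hy : φ y = 0
        · rw [hy, zero_mul]
        · rw [hdf y, mul_zero]
          rw [mem_ball, dist_eq_norm]
          linarith [hsupp y hy]
      simp only [h2, integral_zero, neg_zero]
    · intro j _
      exact (hφ.continuous.mul (pd_contL (hv j) j)).integrable_of_hasCompactSupport hcs.mul_right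
  -- the decomposition of the pressure
  obtain ⟨g, hg⟩ : ∃ g : V → ℝ, g = fun y => q y - m := ⟨_, rfl⟩
  have hgs : ContDiff ℝ ∞ g := by
    rw [hg]
    exact hq.sub contDiff_const
  have hpdg : ∀ j, pd j g = pd j q := by
    intro j
    funext y
    rw [hg]
    unfold pd
    rw [fderiv_sub_const]
  have hlapg : ∀ y ∈ ball x (3 * (ρ / 8)), lap g y = ∑ i, pd i (fun z => crossProduct (v z) (vort v z) i) y := by
    intro y hy
    rw [← hlap y (ball_subset_ball (by linarith) hy)]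
    unfold lap
    simp only [hpdg]
  have hL8 : r ≤ ρ / 8 := by linarith
  have hGs : ∀ i, ContDiff ℝ ∞ (fun y => crossProduct (v y) (vort v y) i) := cross_smooth hv
  obtain ⟨g₂, hg₂, hd1, hd2⟩ := hDec r (ρ / 8) g (fun i y => crossProduct (v y) (vort v y) i) x hr hL8
    hgs hGs hlapg
  have hG : ∀ j ≤ n - 3, ∀ i, ∀ y ∈ closedBall x (ρ / 2),
      |crossProduct (v y) (vort v y) i| ≤ 2 * CV * (f y * w j y) := by
    intro j hj i y hy
    have h1 := cross_abs_le (a := v y) (b := vort v y) (A := CV * w j y) (B := f y) (hvw j hj y hy)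
      (fun i => by rw [hf]; exact Pool.Agent.Q199.VD.abs_le_len _ i) i
    refine h1.trans (le_of_eq ?_)
    ring
  -- first part: `g - g₂`
  have h16 : 64 * r ≤ ρ := by
    rw [h2n]
    have : (2 : ℝ) ^ 6 ≤ 2 ^ n := pow_le_pow_right₀ (by norm_num) hn
    nlinarith
  have hpotG : ∀ i, ∀ y ∈ closedBall x (2 * r), pot r (fun z => crossProduct (v z) (vort v z) i) y ≤
      2 * CV * pot r (fun z => f z * w 0 z) y := by
    intro i y hy
    refine pot_monoL (hGs i).continuous (hfw 0) fun z hz => ?_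
    rw [abs_of_nonneg (mul_nonneg (hf0 _) (hw0 0 _))]
    exact hG 0 (Nat.zero_le _) i _ (closedBall_subset_closedBall (by linarith) (mem_add hy hz))
  have hwpc : Continuous (pot r (fun z => f z * w 0 z)) := pot_contL (hfw 0) r
  have hsubL : closedBall x (2 * r) ⊆ closedBall x (ρ / 8) := closedBall_subset_closedBall (by linarith)
  have hP1 : |∫ y, (g y - g₂ y) * W221.NS.adv v φ y| ≤ 18 * CD * CV ^ 2 * D * NN := by
    have h1 := int_off (F := fun y => (g y - g₂ y) * W221.NS.adv v φ y)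
      (g := fun y => 18 * CD * CV ^ 2 * D / r * (w 0 y * pot r (fun z => f z * w 0 z) y)) (x := x) (R := 2 * r)
      (fun y hy => by rw [hadv0 y hy, mul_zero])
      (integrableOn_ball (continuous_const.mul ((hwc 0).mul hwpc)) _ _) (fun y hy => by
        rw [abs_mul]
        have h2 : |g y - g₂ y| ≤ 6 * CD * CV * pot r (fun z => f z * w 0 z) y := by
          refine (hd1 y (hsubL hy)).trans ?_
          have h3 : ∑ i, pot r ((fun i y => crossProduct (v y) (vort v y) i) i) y ≤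
              ∑ _i : Fin 3, 2 * CV * pot r (fun z => f z * w 0 z) y := Finset.sum_le_sum fun i _ => hpotG i y hy
          rw [Finset.sum_const, Finset.card_univ, Fintype.card_fin, nsmul_eq_mul] at h3
          push_cast at h3
          calc CD * ∑ i, pot r ((fun i y => crossProduct (v y) (vort v y) i) i) y ≤
                CD * (3 * (2 * CV * pot r (fun z => f z * w 0 z) y)) := mul_le_mul_of_nonneg_left h3 hCD.le
            _ = _ := by ring
        have h4 : 0 ≤ 6 * CD * CV * pot r (fun z => f z * w 0 z) y :=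
          mul_nonneg (by positivity) (pot_nonneg _ _ _)
        refine (mul_le_mul h2 (hadv y hy) (abs_nonneg _) h4).trans (le_of_eq ?_)
        ring)
    refine h1.trans ?_
    have h5 : ∫ y in closedBall x (2 * r), 18 * CD * CV ^ 2 * D / r * (w 0 y * pot r (fun z => f z * w 0 z) y) ≤
        ∫ y in closedBall x (4 * r), 18 * CD * CV ^ 2 * D / r * (w 0 y * pot r (fun z => f z * w 0 z) y) :=
      setIntegral_mono_set (integrableOn_ball (continuous_const.mul ((hwc 0).mul hwpc)) _ _)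
        (Eventually.of_forall fun y => mul_nonneg (by positivity) (mul_nonneg (hw0 0 y) (pot_nonneg _ _ _)))
        (Eventually.of_forall hsub)
    refine h5.trans ?_
    rw [integral_const_mul]
    calc 18 * CD * CV ^ 2 * D / r * (∫ y in closedBall x (4 * r), w 0 y * pot r (fun z => f z * w 0 z) y) =
          18 * CD * CV ^ 2 * D * ((∫ y in closedBall x (4 * r), w 0 y * pot r (fun z => f z * w 0 z) y) / r) := by ring
      _ ≤ 18 * CD * CV ^ 2 * D * NN := by gcongr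
  -- second part: `g₂`
  obtain ⟨S0, hS0⟩ : ∃ S0 : ℝ, S0 = ∑ j ∈ Finset.range (n - 2), (1 / 4 : ℝ) ^ j * X j := ⟨_, rfl⟩
  have hfar : ∀ y ∈ closedBall x (2 * r), ∀ i, far r (ρ / 8) (fun z => crossProduct (v z) (vort v z) i) y ≤
      16 * CV * (S0 / r ^ 2) := by
    intro y hy i
    have h1 := far_le (hGs i).continuous y hr (n - 2)
    have e1 : 2 ^ (n - 2) * (r / 2) = ρ / 8 := by
      obtain ⟨k, rfl⟩ : ∃ k, n = k + 2 := ⟨n - 2, by omega⟩
      rw [h2n, Nat.add_sub_cancel, pow_add]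
      ring
    rw [e1] at h1
    unfold far
    refine h1.trans ?_
    rw [hS0, Finset.sum_div, Finset.mul_sum]
    refine Finset.sum_le_sum fun j hj => ?_
    rw [Finset.mem_range] at hj
    have hj' : j ≤ n - 3 := by omega
    obtain ⟨s, hs⟩ : ∃ s : ℝ, s = 2 ^ j * r := ⟨_, rfl⟩
    have hs0 : 0 < s := by rw [hs]; positivity
    have hs8 := hscale j hj'
    rw [← hs] at hs8
    have h2j : (1 : ℝ) ≤ 2 ^ j := one_le_pow₀ (by norm_num)
    have hrs : r ≤ s := by rw [hs]; nlinarith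
    have hsub2 : closedBall y s ⊆ closedBall x (4 * s) := by
      intro z hz
      rw [mem_closedBall] at hz hy ⊢
      linarith [dist_triangle z y x]
    have hsub3 : closedBall x (4 * s) ⊆ closedBall x (ρ / 2) := closedBall_subset_closedBall (by linarith)
    have h3 : ∫ z in closedBall y s, |crossProduct (v z) (vort v z) i| ≤
        2 * CV * ∫ z in closedBall x (4 * s), f z * w j z := by
      rw [← integral_const_mul]
      refine (setIntegral_mono_set (integrableOn_ball (hGs i).continuous.abs _ _)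
        (Eventually.of_forall fun z => abs_nonneg _)
        (Eventually.of_forall hsub2)).trans ?_
      exact setIntegral_mono_on (integrableOn_ball (hGs i).continuous.abs _ _)
        (integrableOn_ball (continuous_const.mul (hfw j)) _ _) measurableSet_closedBall
        fun z hz => hG j hj' i z (hsub3 hz)
    have h4 := (hnear j hj').2.2.1
    rw [← hs, div_le_iff₀ hs0] at h4
    rw [← hs]
    calc 8 / s ^ 3 * ∫ z in closedBall y s, |crossProduct (v z) (vort v z) i| ≤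
          8 / s ^ 3 * (2 * CV * (X j * s)) := by
          gcongr
          exact h3.trans (by gcongr)
      _ = 16 * CV * (X j / s ^ 2) := by field_simp; ring
      _ = 16 * CV * ((1 / 4) ^ j * X j / r ^ 2) := by
          have e2 : (1 / 4 : ℝ) ^ j = 1 / (2 ^ j) ^ 2 := by
            rw [one_div, inv_pow, ← pow_mul, mul_comm, pow_mul]
            norm_num
          rw [e2, hs]
          field_simp
  have hgI : ∀ y ∈ closedBall x (2 * r), ∫ z in closedBall (0 : V) (ρ / 8), |g (y + z)| ≤ Q := by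
    intro y hy
    rw [int_tr (fun z => |g z|) y (ρ / 8)]
    have hs1 : closedBall y (ρ / 8) ⊆ closedBall x ρ := by
      intro z hz
      rw [mem_closedBall] at hz hy ⊢
      linarith [dist_triangle z y x]
    refine (setIntegral_mono_set (integrableOn_ball hgs.continuous.abs x ρ) (Eventually.of_forall fun z => abs_nonneg _)
      (Eventually.of_forall hs1)).trans ?_
    rw [hg]
    exact hQ
  obtain ⟨S, hS⟩ : ∃ S : ℝ, S = CD * (48 * CV * (S0 / r ^ 2) + Q / (ρ / 8) ^ 4) := ⟨_, rfl⟩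
  have hgrad : ∀ y ∈ closedBall x (2 * r), ∀ j, |pd j g₂ y| ≤ S := by
    intro y hy j
    refine (hd2 y (hsubL hy) j).trans ?_
    rw [hS]
    refine mul_le_mul_of_nonneg_left ?_ hCD.le
    have h1 : ∑ i, far r (ρ / 8) ((fun i y => crossProduct (v y) (vort v y) i) i) y ≤
        ∑ _i : Fin 3, 16 * CV * (S0 / r ^ 2) := Finset.sum_le_sum fun i _ => hfar y hy i
    rw [Finset.sum_const, Finset.card_univ, Fintype.card_fin, nsmul_eq_mul] at h1
    push_cast at h1
    have h2 : (∫ z in closedBall (0 : V) (ρ / 8), |g (y + z)|) / (ρ / 8) ^ 4 ≤ Q / (ρ / 8) ^ 4 := by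
      gcongr
      exact hgI y hy
    linarith
  have hSnn : 0 ≤ S := (abs_nonneg _).trans (hgrad x (mem_closedBall_self (by positivity)) 0)
  have hwI : ∫ y in closedBall x (2 * r), w 0 y ≤ (72 * K + 64 * A 0) * r ^ 2 := by
    have e1 : ∫ y in closedBall x (2 * r), w 0 y = (∫ y in closedBall x (2 * r), pot r f y) +
        ∫ _y in closedBall x (2 * r), A 0 / r := by
      rw [hw]
      simp only [pow_zero, one_mul]
      exact integral_add (integrableOn_ball (pot_contL hfc r) _ _) (integrableOn_ball continuous_const _ _)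
    rw [e1, setIntegral_const, vol_ball_real x (by positivity), smul_eq_mul]
    have hM3 : ∫ y in closedBall x (2 * r + r), |f y| ≤ K * (3 * r) := by
      have := hMor x (2 * r + r) (by positivity) (by rw [sub_self, norm_zero]; linarith)
      rw [← hf] at this
      refine this.trans (le_of_eq (by ring))
    have h1 := int_pot_leL hfc x hr hM3
    have e2 : (2 * (2 * r)) ^ 3 * (A 0 / r) = 64 * A 0 * r ^ 2 := by
      field_simp
      ring
    rw [e2]
    nlinarith
  have hP2 : |∫ y, (g₂ y - g₂ x) * W221.NS.adv v φ y| ≤ 18 * CV * (72 * K + 64 * A 0) * D * (r ^ 2 * S) := by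
    have h1 := int_off (F := fun y => (g₂ y - g₂ x) * W221.NS.adv v φ y)
      (g := fun y => 18 * CV * D * S * w 0 y) (x := x) (R := 2 * r)
      (fun y hy => by rw [hadv0 y hy, mul_zero])
      (integrableOn_ball (continuous_const.mul (hwc 0)) _ _) (fun y hy => by
        rw [abs_mul]
        have h2 := mv_ball hg₂ (by positivity : 0 ≤ 2 * r) hgrad hy
        refine (mul_le_mul h2 (hadv y hy) (abs_nonneg _) (by positivity)).trans (le_of_eq ?_)
        field_simp
        ring)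
    refine h1.trans ?_
    rw [integral_const_mul]
    calc 18 * CV * D * S * ∫ y in closedBall x (2 * r), w 0 y ≤ 18 * CV * D * S * ((72 * K + 64 * A 0) * r ^ 2) := by
          gcongr
      _ = _ := by ring
  -- the identity
  have hi1 : Integrable fun y => (g y - g₂ y) * W221.NS.adv v φ y :=
    ((hgs.continuous.sub hg₂.continuous).mul hadvc).integrable_of_hasCompactSupport hadvcs.mul_left
  have hi2 : Integrable fun y => (g₂ y - g₂ x) * W221.NS.adv v φ y :=
    ((hg₂.continuous.sub continuous_const).mul hadvc).integrable_of_hasCompactSupport hadvcs.mul_left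
  have hi3 : Integrable fun y => (m + g₂ x) * W221.NS.adv v φ y :=
    (continuous_const.mul hadvc).integrable_of_hasCompactSupport hadvcs.mul_left
  have hid : ∫ y, q y * W221.NS.adv v φ y = (∫ y, (g y - g₂ y) * W221.NS.adv v φ y) +
      ∫ y, (g₂ y - g₂ x) * W221.NS.adv v φ y := by
    have e1 : ∀ y, q y * W221.NS.adv v φ y = ((g y - g₂ y) * W221.NS.adv v φ y +
        (g₂ y - g₂ x) * W221.NS.adv v φ y) + (m + g₂ x) * W221.NS.adv v φ y := by
      intro y
      rw [hg]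
      ring
    simp only [e1]
    have hi12 : Integrable fun y => (g y - g₂ y) * W221.NS.adv v φ y + (g₂ y - g₂ x) * W221.NS.adv v φ y :=
      hi1.add hi2
    rw [integral_add hi12 hi3, integral_add hi1 hi2, integral_const_mul, hadvI, mul_zero, add_zero]
  have hT2 : |2 * ∫ y, q y * W221.NS.adv v φ y| ≤ 36 * CD * CV ^ 2 * D * NN +
      36 * CV * (72 * K + 64 * A 0) * D * (r ^ 2 * S) := by
    rw [hid, abs_mul, abs_two]
    have h1 := abs_add_le (∫ y, (g y - g₂ y) * W221.NS.adv v φ y) (∫ y, (g₂ y - g₂ x) * W221.NS.adv v φ y)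
    linarith
  -- the end
  rw [← hS0, ← hNN]
  have e1 : 36 * CV * (72 * K + 64 * A 0) * D * (r ^ 2 * S) =
      36 * CV * (72 * K + 64 * A 0) * D * CD * (48 * CV * S0 + r ^ 2 * (Q / (ρ / 8) ^ 4)) := by
    rw [hS]
    field_simp
  have e2 : (3 * CV ^ 2 * (D + 1) + 36 * CD * CV ^ 2 * D) * NN =
      3 * CV ^ 2 * D * NN + 36 * CD * CV ^ 2 * D * NN + 3 * CV ^ 2 * NN := by ring
  rw [← e1, e2]
  linarith

/-- the arithmetic at the end -/
theorem finish {a b CV δ δ' c1 c2 r Q' L : ℝ} (ha : 0 ≤ a) (hb : 0 ≤ b) (hCV : 0 < CV) (hr : 0 < r)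
    (hδ' : 0 ≤ δ') (hδ : δ' * (a + 48 * b * CV) = δ / 2) (hc1 : 0 ≤ c1) (hc2 : 0 ≤ c2) {F B X : ℕ → ℝ}
    (hF0 : ∀ j, 0 ≤ F j) (hFB : ∀ j, F j ≤ 2 * B j) {N : ℕ} (hN : 0 < N)
    (hX : ∀ j, X j = δ' * F j + c1 / (2 ^ j * r) + c2)
    (hL : L ≤ a * X 0 + b * (48 * CV * (∑ j ∈ Finset.range N, (1 / 4 : ℝ) ^ j * X j) + Q')) :
    L ≤ δ * (∑ j ∈ Finset.range N, (1 / 4 : ℝ) ^ j * B j) + (a + 96 * b * CV) * (c1 / r + c2) + b * Q' := by
  obtain ⟨S1, hS1⟩ : ∃ S1 : ℝ, S1 = ∑ j ∈ Finset.range N, (1 / 4 : ℝ) ^ j * F j := ⟨_, rfl⟩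
  have hg : ∑ j ∈ Finset.range N, (1 / 4 : ℝ) ^ j ≤ 2 := by
    have h2 : ∑ j ∈ Finset.range N, (1 / 4 : ℝ) ^ j ≤ ∑ j ∈ Finset.range N, (1 / 2 : ℝ) ^ j :=
      Finset.sum_le_sum fun j _ => pow_le_pow_left₀ (by norm_num) (by norm_num) j
    exact h2.trans (sum_geometric_two_le _)
  have hsum : ∑ j ∈ Finset.range N, (1 / 4 : ℝ) ^ j * X j ≤ δ' * S1 + 2 * (c1 / r + c2) := by
    have h1 : ∀ j ∈ Finset.range N, (1 / 4 : ℝ) ^ j * X j ≤ δ' * ((1 / 4 : ℝ) ^ j * F j) + (1 / 4 : ℝ) ^ j * (c1 / r + c2) := by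
      intro j _
      rw [hX]
      have h2 : c1 / (2 ^ j * r) ≤ c1 / r := by
        apply div_le_div_of_nonneg_left hc1 hr
        have : (1 : ℝ) ≤ 2 ^ j := one_le_pow₀ (by norm_num)
        nlinarith
      have h3 : 0 ≤ (1 / 4 : ℝ) ^ j := by positivity
      have h4 := mul_le_mul_of_nonneg_left h2 h3
      linarith
    refine (Finset.sum_le_sum h1).trans ?_
    rw [Finset.sum_add_distrib, ← Finset.mul_sum, ← hS1, ← Finset.sum_mul]
    have h5 : 0 ≤ c1 / r + c2 := by positivity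
    have h6 := mul_le_mul_of_nonneg_right hg h5
    linarith
  have hF1 : F 0 ≤ S1 := by
    rw [hS1]
    have h1 := Finset.single_le_sum (f := fun j => (1 / 4 : ℝ) ^ j * F j) (s := Finset.range N)
      (fun j _ => mul_nonneg (by positivity) (hF0 j)) (Finset.mem_range.2 hN)
    simpa using h1
  have hSB : S1 ≤ 2 * ∑ j ∈ Finset.range N, (1 / 4 : ℝ) ^ j * B j := by
    rw [hS1, Finset.mul_sum]
    refine Finset.sum_le_sum fun j _ => ?_
    have := mul_le_mul_of_nonneg_left (hFB j) (by positivity : (0 : ℝ) ≤ (1 / 4) ^ j)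
    linarith
  have hX0 : X 0 ≤ δ' * S1 + (c1 / r + c2) := by
    rw [hX, pow_zero, one_mul]
    have := mul_le_mul_of_nonneg_left hF1 hδ'
    linarith
  refine hL.trans ?_
  have hδ0 : 0 ≤ δ' * (a + 48 * b * CV) := mul_nonneg hδ' (by positivity)
  calc a * X 0 + b * (48 * CV * (∑ j ∈ Finset.range N, (1 / 4 : ℝ) ^ j * X j) + Q') ≤
        a * (δ' * S1 + (c1 / r + c2)) + b * (48 * CV * (δ' * S1 + 2 * (c1 / r + c2)) + Q') := by gcongr
    _ = (δ' * (a + 48 * b * CV)) * S1 + (a + 96 * b * CV) * (c1 / r + c2) + b * Q' := by ring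
    _ ≤ (δ' * (a + 48 * b * CV)) * (2 * ∑ j ∈ Finset.range N, (1 / 4 : ℝ) ^ j * B j) +
          (a + 96 * b * CV) * (c1 / r + c2) + b * Q' := by gcongr
    _ = δ * (∑ j ∈ Finset.range N, (1 / 4 : ℝ) ^ j * B j) + (a + 96 * b * CV) * (c1 / r + c2) + b * Q' := by
        rw [hδ]
        ring

theorem flxL : StmVelL → StmNear → StmDecL → StmFlxL := by
  rintro ⟨CV, hCV, hVel⟩ hNear ⟨CD, hCD, hDec⟩ δ D K₁ hδ hD hK₁
  obtain ⟨a, ha⟩ : ∃ a : ℝ, a = 3 * CV ^ 2 * (D + 1) + 36 * CD * CV ^ 2 * D := ⟨_, rfl⟩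
  have ha0 : 0 < a := by rw [ha]; positivity
  obtain ⟨b, hb⟩ : ∃ b : ℝ, b = 36 * CV * (200 * K₁) * D * CD := ⟨_, rfl⟩
  have hb0 : 0 < b := by rw [hb]; positivity
  obtain ⟨δ₁, hδ₁⟩ : ∃ δ₁ : ℝ, δ₁ = δ / (2 * (a + 48 * b * CV)) := ⟨_, rfl⟩
  have hδ₁0 : 0 < δ₁ := by rw [hδ₁]; positivity
  have hδ₁' : δ₁ * (a + 48 * b * CV) = δ / 2 := by
    have h0 : 0 < a + 48 * b * CV := by positivity
    rw [hδ₁, div_mul_eq_mul_div, div_eq_div_iff (by positivity) (by norm_num)]
    ring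
  obtain ⟨C₁, hC₁, hN1⟩ := nearS hNear δ₁ K₁ hδ₁0 hK₁
  refine ⟨(a + 96 * b * CV) * C₁, by positivity, ?_⟩
  intro K H ρ hK hKK hH hρ hρ1
  obtain ⟨r₀, hr₀⟩ : ∃ r₀ : ℝ, r₀ = K / (H + 1) := ⟨_, rfl⟩
  have hr₀0 : 0 < r₀ := by rw [hr₀]; positivity
  have hKH : 0 ≤ K + H := by positivity
  obtain ⟨CN, hCN, hN2⟩ := nearL hNear K (K + H) δ₁ hK.le hKH hδ₁0
  obtain ⟨b₂, hb₂⟩ : ∃ b₂ : ℝ, b₂ = 36 * CV * (72 * K + 64 * (K + H)) * D * CD := ⟨_, rfl⟩
  have hb₂0 : 0 < b₂ := by rw [hb₂]; positivity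
  obtain ⟨δ₂, hδ₂⟩ : ∃ δ₂ : ℝ, δ₂ = δ / (2 * (a + 48 * b₂ * CV)) := ⟨_, rfl⟩
  have hδ₂0 : 0 < δ₂ := by rw [hδ₂]; positivity
  have hδ₂' : δ₂ * (a + 48 * b₂ * CV) = δ / 2 := by
    have h0 : 0 < a + 48 * b₂ * CV := by positivity
    rw [hδ₂, div_mul_eq_mul_div, div_eq_div_iff (by positivity) (by norm_num)]
    ring
  obtain ⟨CN₂, hCN₂, hN3⟩ := nearL hNear K (K + H) δ₂ hK.le hKH hδ₂0
  refine ⟨(a + 96 * b * CV) * (CN / r₀) + b / (ρ / 8) ^ 4 + (a + 96 * b₂ * CV) * (CN₂ / r₀) + b₂ / (ρ / 8) ^ 4,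
    by positivity, ?_⟩
  intro v q m Q x hv hq hdf hlap hMor hE hQ n hn φ hφ hsupp hpd hlapφ
  have hQ0 : 0 ≤ Q := (integral_nonneg fun y => abs_nonneg _).trans hQ
  obtain ⟨r, hrdef⟩ : ∃ r : ℝ, r = ρ / 2 ^ n := ⟨_, rfl⟩
  have hr : 0 < r := by rw [hrdef]; positivity
  have h2n : ρ = 2 ^ n * r := by rw [hrdef]; field_simp
  have hscale : ∀ j ≤ n - 3, 8 * (2 ^ j * r) ≤ ρ := by
    intro j hj
    have h1 : (2 : ℝ) ^ j * 8 ≤ 2 ^ n := by
      have : (2 : ℝ) ^ j * 2 ^ 3 ≤ 2 ^ n := by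
        rw [← pow_add]
        exact pow_le_pow_right₀ (by norm_num) (by omega)
      linarith
    rw [h2n]
    nlinarith
  obtain ⟨F, hF⟩ : ∃ F : ℕ → ℝ, F = fun j => ∫ y in closedBall x (8 * (2 ^ j * r)), om v y ^ 2 := ⟨_, rfl⟩
  have hF0 : ∀ j, 0 ≤ F j := fun j => by rw [hF]; exact integral_nonneg fun y => sq_nonneg _
  have hFB : ∀ j, F j ≤ 2 * W221.NS.B2 x (2 ^ (j + 3) * r) v := by
    intro j
    rw [hF]
    have e : 8 * ((2 : ℝ) ^ j * r) = 2 ^ (j + 3) * r := by rw [pow_add]; ring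
    show ∫ y in closedBall x (8 * (2 ^ j * r)), om v y ^ 2 ≤ _
    rw [e]
    exact int_om_sqL hv x _
  have hfc : Continuous (om v) := om_contL hv
  have hf0 : ∀ y, 0 ≤ om v y := fun y => Pool.Agent.Q199.VD.om_nonneg v y
  have hQr : 0 ≤ r ^ 2 * Q := by positivity
  rcases le_total r r₀ with hc | hc
  · -- small scales
    classical
    obtain ⟨A, hA⟩ : ∃ A : ℕ → ℝ, A = fun j => if 2 ^ j * r ≤ r₀ then 2 * K else K + H := ⟨_, rfl⟩
    obtain ⟨X, hX⟩ : ∃ X : ℕ → ℝ, X = fun j => δ₁ * F j + C₁ * K ^ 2 / (2 ^ j * r) + CN / r₀ := ⟨_, rfl⟩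
    have hA00 : A 0 = 2 * K := by
      rw [hA]
      simp only [pow_zero, one_mul]
      rw [if_pos hc]
    have hm := master (D := D) (K := K) (H := H) hCV hVel hCD hDec hD hK.le hρ hv hq hdf hlap hMor hE hQ hn hφ hsupp hpd hlapφ
      (A := A) (X := X) ?_ ?_ ?_
    · rw [hA00, ← hrdef, ← ha] at hm
      have hbb : 36 * CV * (72 * K + 64 * (2 * K)) * D * CD ≤ b := by
        rw [hb]
        have : 72 * K + 64 * (2 * K) ≤ 200 * K₁ := by linarith
        gcongr
      have hS0 : 0 ≤ 48 * CV * (∑ j ∈ Finset.range (n - 2), (1 / 4 : ℝ) ^ j * X j) + r ^ 2 * (Q / (ρ / 8) ^ 4) := by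
        have h1 : ∀ j, 0 ≤ X j := fun j => by
          rw [hX]
          have := hF0 j
          positivity
        have h2 : 0 ≤ ∑ j ∈ Finset.range (n - 2), (1 / 4 : ℝ) ^ j * X j :=
          Finset.sum_nonneg fun j _ => mul_nonneg (by positivity) (h1 j)
        positivity
      have hm2 := hm.trans (add_le_add le_rfl (mul_le_mul_of_nonneg_right hbb hS0))
      have hfin := finish (δ := δ) (c1 := C₁ * K ^ 2) (c2 := CN / r₀) ha0.le hb0.le hCV hr hδ₁0.le hδ₁' (by positivity)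
        (by positivity : 0 ≤ CN / r₀) hF0 hFB (by omega : 0 < n - 2) (fun j => by rw [hX]) hm2
      rw [← hrdef]
      refine hfin.trans ?_
      have e1 : (a + 96 * b * CV) * (C₁ * K ^ 2 / r + CN / r₀) + b * (r ^ 2 * (Q / (ρ / 8) ^ 4)) =
          (a + 96 * b * CV) * C₁ * K ^ 2 / r + ((a + 96 * b * CV) * (CN / r₀) + b / (ρ / 8) ^ 4 * (r ^ 2 * Q)) := by
        ring
      have t1 : 0 ≤ (a + 96 * b * CV) * (CN / r₀) := by positivity
      have t2 : 0 ≤ b / (ρ / 8) ^ 4 := by positivity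
      have t3 : 0 ≤ (a + 96 * b₂ * CV) * (CN₂ / r₀) + b₂ / (ρ / 8) ^ 4 := by positivity
      have t4 : (a + 96 * b * CV) * (CN / r₀) + b / (ρ / 8) ^ 4 * (r ^ 2 * Q) ≤
          ((a + 96 * b * CV) * (CN / r₀) + b / (ρ / 8) ^ 4 + (a + 96 * b₂ * CV) * (CN₂ / r₀) + b₂ / (ρ / 8) ^ 4) *
            (1 + r ^ 2 * Q) := by nlinarith
      linarith
    · intro j
      rw [hA]
      simp only
      split_ifs <;> positivity
    · intro j hj
      rw [← hrdef]
      have hs : 0 < 2 ^ j * r := by positivity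
      have hs1 : 2 ^ j * r ≤ 1 := by linarith [hscale j hj]
      rw [hA]
      simp only
      split_ifs with h
      · rw [div_add' _ _ _ hs.ne', div_le_div_iff_of_pos_right hs]
        rw [hr₀, le_div_iff₀ (by positivity)] at h
        nlinarith
      · rw [div_add' _ _ _ hs.ne', div_le_div_iff_of_pos_right hs]
        nlinarith
    · intro j hj
      rw [← hrdef]
      have hs : 0 < 2 ^ j * r := by positivity
      have hs7 : 7 * (2 ^ j * r) ≤ ρ := by linarith [hscale j hj]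
      rw [hA, hX, hF]
      unfold NT
      simp only
      have p1 : 0 ≤ CN / r₀ := by positivity
      have p2 : 0 ≤ C₁ * K ^ 2 / (2 ^ j * r) := by positivity
      split_ifs with h
      · have := hN1 K (2 ^ j * r) ρ (om v) x hK hKK hs hs7 hfc hf0 hMor
        linarith
      · have h1 := hN2 (2 ^ j * r) ρ (om v) x hs hs7 hfc hf0 hMor
        have h2 : CN / (2 ^ j * r) ≤ CN / r₀ := div_le_div_of_nonneg_left hCN hr₀0 (not_le.1 h).le
        linarith
  · -- large scales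
    obtain ⟨X, hX⟩ : ∃ X : ℕ → ℝ, X = fun j => δ₂ * F j + CN₂ / (2 ^ j * r) + 0 := ⟨_, rfl⟩
    have hm := master (D := D) (K := K) (H := H) hCV hVel hCD hDec hD hK.le hρ hv hq hdf hlap hMor hE hQ hn hφ hsupp hpd hlapφ
      (A := fun _ => K + H) (X := X) ?_ ?_ ?_
    · rw [← hrdef, ← ha, ← hb₂] at hm
      have hfin := finish (δ := δ) (c1 := CN₂) (c2 := 0) ha0.le hb₂0.le hCV hr hδ₂0.le hδ₂' hCN₂
        le_rfl hF0 hFB (by omega : 0 < n - 2) (fun j => by rw [hX]) hm
      rw [← hrdef]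
      refine hfin.trans ?_
      have e1 : (a + 96 * b₂ * CV) * (CN₂ / r + 0) ≤ (a + 96 * b₂ * CV) * (CN₂ / r₀) := by
        rw [add_zero]
        gcongr
      have e2 : b₂ * (r ^ 2 * (Q / (ρ / 8) ^ 4)) = b₂ / (ρ / 8) ^ 4 * (r ^ 2 * Q) := by ring
      have t0 : 0 ≤ (a + 96 * b * CV) * C₁ * K ^ 2 / r := by positivity
      have t1 : 0 ≤ (a + 96 * b₂ * CV) * (CN₂ / r₀) := by positivity
      have t2 : 0 ≤ b₂ / (ρ / 8) ^ 4 := by positivity
      have t3 : 0 ≤ (a + 96 * b * CV) * (CN / r₀) + b / (ρ / 8) ^ 4 := by positivity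
      have t4 : (a + 96 * b₂ * CV) * (CN₂ / r₀) + b₂ / (ρ / 8) ^ 4 * (r ^ 2 * Q) ≤
          ((a + 96 * b * CV) * (CN / r₀) + b / (ρ / 8) ^ 4 + (a + 96 * b₂ * CV) * (CN₂ / r₀) + b₂ / (ρ / 8) ^ 4) *
            (1 + r ^ 2 * Q) := by nlinarith
      linarith
    · intro j
      exact hKH
    · intro j hj
      rw [← hrdef]
      have hs : 0 < 2 ^ j * r := by positivity
      have hs1 : 2 ^ j * r ≤ 1 := by linarith [hscale j hj]
      rw [div_add' _ _ _ hs.ne', div_le_div_iff_of_pos_right hs]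
      nlinarith
    · intro j hj
      rw [← hrdef]
      have hs : 0 < 2 ^ j * r := by positivity
      have hs7 : 7 * (2 ^ j * r) ≤ ρ := by linarith [hscale j hj]
      rw [hX, hF]
      unfold NT
      simp only
      have h1 := hN3 (2 ^ j * r) ρ (om v) x hs hs7 hfc hf0 hMor
      linarith

end Pool.Agent.Q16.CL
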