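import Pool.Agent.Q85.CL.FluxL
import Pool.Agent.Q16.CC.Flx0

/-!
Project CL, job CL-FLX: preparations.
-/

set_option autoImplicit false

open MeasureTheory Set Metric Filter Topology
open scoped ContDiff
open H459R3.NS Pool.Agent.W268.NS Pool.Agent.Q67.VD
open Pool.Agent.Q85.CC Pool.Agent.Q85.CL Pool.Agent.Q16.CC

namespace Pool.Agent.Q16.CL

/-- a continuous function is bounded on a ball -/
theorem bdd_ball {f : V → ℝ} (hc : Continuous f) (x : V) (R : ℝ) : ∃ B : ℝ, 0 ≤ B ∧ ∀ y ∈ closedBall x R, |f y| ≤ B := by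
  obtain ⟨B, hB⟩ := (isCompact_closedBall x R).exists_bound_of_continuousOn hc.continuousOn
  exact ⟨max B 0, le_max_right _ _, fun y hy => (hB y hy).trans (le_max_left _ _)⟩

theorem pot_intL {f : V → ℝ} (hc : Continuous f) (s : ℝ) (x : V) :
    IntegrableOn (fun z => |f (x + z)| / ‖z‖ ^ 2) (closedBall (0 : V) s) := by
  obtain ⟨B, hB, hf⟩ := bdd_ball hc x s
  have hm : Measurable f := hc.measurable
  refine Integrable.mono' ((ker_int s).const_mul B) ?_ ?_
  · refine Measurable.aestronglyMeasurable ?_
    fun_prop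
  · refine (ae_restrict_mem measurableSet_closedBall).mono fun z hz => ?_
    rw [Real.norm_eq_abs, abs_div, abs_abs, abs_of_nonneg (sq_nonneg ‖z‖), div_eq_mul_inv]
    refine mul_le_mul_of_nonneg_right (hf _ ?_) (by positivity)
    rw [mem_closedBall, dist_eq_norm]
    simpa using hz

theorem pot_contL {f : V → ℝ} (hc : Continuous f) (s : ℝ) : Continuous (pot s f) := by
  rw [continuous_iff_continuousAt]
  intro x₀
  obtain ⟨B, hB, hf⟩ := bdd_ball hc x₀ (s + 1)
  unfold pot
  refine continuousAt_of_dominated (bound := fun z => B * (‖z‖ ^ 2)⁻¹) ?_ ?_ ((ker_int s).const_mul B) ?_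
  · exact Eventually.of_forall fun x => (pot_intL hc s x).aestronglyMeasurable
  · filter_upwards [ball_mem_nhds x₀ one_pos] with x hx
    refine (ae_restrict_mem measurableSet_closedBall).mono fun z hz => ?_
    rw [Real.norm_eq_abs, abs_div, abs_abs, abs_of_nonneg (sq_nonneg ‖z‖), div_eq_mul_inv]
    refine mul_le_mul_of_nonneg_right (hf _ ?_) (by positivity)
    rw [mem_closedBall, dist_eq_norm]
    rw [mem_ball, dist_eq_norm] at hx
    rw [mem_closedBall_zero_iff] at hz
    have e : x + z - x₀ = (x - x₀) + z := by abel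
    rw [e]
    linarith [norm_add_le (x - x₀) z]
  · refine Eventually.of_forall fun z => ?_
    have : Continuous fun x => |f (x + z)| / ‖z‖ ^ 2 := by fun_prop
    exact this.continuousAt

theorem pot_monoL {f g : V → ℝ} (hf : Continuous f) (hg : Continuous g) {s c : ℝ} {x : V}
    (h : ∀ z, ‖z‖ ≤ s → |f (x + z)| ≤ c * |g (x + z)|) : pot s f x ≤ c * pot s g x := by
  unfold pot
  rw [← integral_const_mul]
  refine setIntegral_mono_on (pot_intL hf s x) ((pot_intL hg s x).const_mul c) measurableSet_closedBall fun z hz => ?_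
  rw [mem_closedBall_zero_iff] at hz
  have h2 : 0 ≤ (‖z‖ ^ 2)⁻¹ := by positivity
  have h3 := mul_le_mul_of_nonneg_right (h z hz) h2
  rw [div_eq_mul_inv, div_eq_mul_inv]
  linarith

theorem pot_congrL {f g : V → ℝ} {s : ℝ} {x : V} (h : ∀ z, ‖z‖ ≤ s → f (x + z) = g (x + z)) :
    pot s f x = pot s g x := by
  unfold pot
  refine setIntegral_congr_fun measurableSet_closedBall fun z hz => ?_
  rw [mem_closedBall_zero_iff] at hz
  show |f (x + z)| / ‖z‖ ^ 2 = |g (x + z)| / ‖z‖ ^ 2
  rw [h z hz]

theorem mem_add {x y z : V} {R s : ℝ} (hy : y ∈ closedBall x R) (hz : ‖z‖ ≤ s) : y + z ∈ closedBall x (R + s) := by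
  rw [mem_closedBall, dist_eq_norm] at hy ⊢
  have e : y + z - x = (y - x) + z := by abel
  rw [e]
  linarith [norm_add_le (y - x) z]

/-- Tonelli: the integral of the potential over a ball -/
theorem int_pot_leB {f : V → ℝ} (hc : Continuous f) {B : ℝ} (hfB : ∀ y, |f y| ≤ B) {M R r : ℝ} (x : V)
    (hr : 0 < r) (hM : ∫ y in closedBall x (R + r), |f y| ≤ M) :
    ∫ y in closedBall x R, pot r f y ≤ 24 * r * M := by
  have hint : Integrable (Function.uncurry fun (y z : V) => |f (y + z)| / ‖z‖ ^ 2)
      ((volume.restrict (closedBall x R)).prod (volume.restrict (closedBall (0 : V) r))) := by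
    have h1 : Integrable (fun p : V × V => B * (‖p.2‖ ^ 2)⁻¹)
        ((volume.restrict (closedBall x R)).prod (volume.restrict (closedBall (0 : V) r))) := by
      have h2 : Integrable (fun _ : V => B) (volume.restrict (closedBall x R)) :=
        integrableOn_const (by exact (isCompact_closedBall x R).measure_lt_top.ne)
      exact h2.mul_prod (ker_int r)
    refine h1.mono' ?_ (Eventually.of_forall fun p => ?_)
    · refine Measurable.aestronglyMeasurable ?_
      have h3 : Measurable f := hc.measurable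
      unfold Function.uncurry
      fun_prop
    · rw [Real.norm_eq_abs, Function.uncurry, abs_div, abs_abs, abs_of_nonneg (sq_nonneg ‖p.2‖), div_eq_mul_inv]
      exact mul_le_mul_of_nonneg_right (hfB _) (by positivity)
  unfold pot
  rw [integral_integral_swap hint]
  have hK : ∀ z ∈ closedBall (0 : V) r, ∫ y in closedBall x R, |f (y + z)| / ‖z‖ ^ 2 ≤ M * (‖z‖ ^ 2)⁻¹ := by
    intro z hz
    have hz' : ‖z‖ ≤ r := by simpa using hz
    have e : ∫ y in closedBall x R, |f (y + z)| / ‖z‖ ^ 2 = (∫ y in closedBall x R, |f (y + z)|) * (‖z‖ ^ 2)⁻¹ := by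
      rw [← integral_mul_const]
      rfl
    rw [e]
    refine mul_le_mul_of_nonneg_right ?_ (by positivity)
    have h1 := (measurePreserving_add_right (volume : Measure V) z).setIntegral_preimage_emb
      (measurableEmbedding_addRight z) (fun y => |f y|) (closedBall (x + z) R)
    have h2 : (fun y : V => y + z) ⁻¹' closedBall (x + z) R = closedBall x R := by
      ext y
      simp
    rw [h2] at h1
    rw [h1]
    have h3 : closedBall (x + z) R ⊆ closedBall x (R + r) := by
      intro y hy
      rw [mem_closedBall] at hy ⊢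
      have h4 : dist (x + z) x ≤ r := by rw [dist_eq_norm]; simpa using hz'
      linarith [dist_triangle y (x + z) x]
    refine (setIntegral_mono_set (integrableOn_ball hc.abs x (R + r)) (Eventually.of_forall fun y => abs_nonneg _)
      (Eventually.of_forall h3)).trans hM
  have hR2 : ∫ z in closedBall (0 : V) r, M * (‖z‖ ^ 2)⁻¹ = 24 * r * M := by
    rw [integral_const_mul, ker_val hr.le]
    ring
  rw [← hR2]
  refine setIntegral_mono_on ?_ ((ker_int r).const_mul _) measurableSet_closedBall hK
  exact hint.swap.integral_prod_left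

theorem int_pot_leL {f : V → ℝ} (hc : Continuous f) {M R r : ℝ} (x : V)
    (hr : 0 < r) (hM : ∫ y in closedBall x (R + r), |f y| ≤ M) :
    ∫ y in closedBall x R, pot r f y ≤ 24 * r * M := by
  obtain ⟨B, hB, hf⟩ := bdd_ball hc x (R + r)
  set g : V → ℝ := fun y => max (-B) (min B (f y)) with hg
  have hgc : Continuous g := continuous_const.max (continuous_const.min hc)
  have hgB : ∀ y, |g y| ≤ B := by
    intro y
    rw [abs_le]
    exact ⟨le_max_left _ _, max_le (by linarith) (min_le_left _ _)⟩
  have hgf : ∀ y ∈ closedBall x (R + r), g y = f y := by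
    intro y hy
    have := abs_le.1 (hf y hy)
    rw [hg]
    simp only
    rw [min_eq_right this.2, max_eq_right this.1]
  have h1 : ∫ y in closedBall x R, pot r f y = ∫ y in closedBall x R, pot r g y := by
    refine setIntegral_congr_fun measurableSet_closedBall fun y hy => ?_
    exact pot_congrL fun z hz => (hgf _ (mem_add hy hz)).symm
  rw [h1]
  refine int_pot_leB hgc hgB x hr (le_trans (le_of_eq ?_) hM)
  refine setIntegral_congr_fun measurableSet_closedBall fun y hy => ?_
  show |g y| = |f y|
  rw [hgf y hy]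

/-- the intersection of two cubes is in a cube which is contained in the second one -/
theorem cube_inter (x z : V) {t S : ℝ} (ht : 0 < t) (hS : 0 < S) : ∃ z' : V, ∃ t' : ℝ, 0 < t' ∧ t' ≤ t ∧
    ‖z' - x‖ + t' ≤ S ∧ closedBall z t ∩ closedBall x S ⊆ closedBall z' t' := by
  refine ⟨fun i => max (x i - (S - min t S)) (min (x i + (S - min t S)) (z i)), min t S, lt_min ht hS,
    min_le_left _ _, ?_, ?_⟩
  · have h1 : ‖(fun i => max (x i - (S - min t S)) (min (x i + (S - min t S)) (z i))) - x‖ ≤ S - min t S := by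
      have h0 : 0 ≤ S - min t S := by linarith [min_le_right t S]
      rw [pi_norm_le_iff_of_nonneg h0]
      intro i
      rw [Real.norm_eq_abs, abs_le, Pi.sub_apply]
      constructor
      · linarith [le_max_left (x i - (S - min t S)) (min (x i + (S - min t S)) (z i))]
      · have : max (x i - (S - min t S)) (min (x i + (S - min t S)) (z i)) ≤ x i + (S - min t S) :=
          max_le (by linarith) (min_le_left _ _)
        linarith
    linarith
  · rintro y ⟨hy1, hy2⟩
    rw [mem_closedBall, dist_eq_norm, pi_norm_le_iff_of_nonneg (lt_min ht hS).le]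
    rw [mem_closedBall, dist_eq_norm, pi_norm_le_iff_of_nonneg ht.le] at hy1
    rw [mem_closedBall, dist_eq_norm, pi_norm_le_iff_of_nonneg hS.le] at hy2
    intro i
    have a1 := abs_le.1 (by simpa [Real.norm_eq_abs] using hy1 i : |y i - z i| ≤ t)
    have a2 := abs_le.1 (by simpa [Real.norm_eq_abs] using hy2 i : |y i - x i| ≤ S)
    rw [Real.norm_eq_abs, abs_le, Pi.sub_apply]
    rcases le_total t S with h | h
    · rw [min_eq_left h]
      rcases le_total (x i + (S - t)) (z i) with h1 | h1
      · rw [min_eq_left h1, max_eq_right (by linarith)]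
        constructor <;> linarith
      · rw [min_eq_right h1]
        rcases le_total (x i - (S - t)) (z i) with h2 | h2
        · rw [max_eq_right h2]
          constructor <;> linarith
        · rw [max_eq_left h2]
          constructor <;> linarith
    · rw [min_eq_right h, sub_self, sub_zero, add_zero]
      rcases le_total (x i) (z i) with h1 | h1
      · rw [min_eq_left h1, max_self]
        constructor <;> linarith
      · rw [min_eq_right h1, max_eq_left h1]
        constructor <;> linarith

/-- the cut-off function -/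
noncomputable def cf (x : V) (r : ℝ) (y : V) : ℝ := max 0 (min 1 (7 - ‖y - x‖ / r))

theorem cf_cont (x : V) (r : ℝ) : Continuous (cf x r) := by
  unfold cf
  fun_prop

theorem cf_nonneg (x : V) (r : ℝ) (y : V) : 0 ≤ cf x r y := le_max_left _ _

theorem cf_le (x : V) (r : ℝ) (y : V) : cf x r y ≤ 1 := max_le (by norm_num) (min_le_left _ _)

theorem cf_one {x : V} {r : ℝ} (hr : 0 < r) {y : V} (hy : y ∈ closedBall x (6 * r)) : cf x r y = 1 := by
  rw [mem_closedBall, dist_eq_norm] at hy
  have h1 : ‖y - x‖ / r ≤ 6 := by rw [div_le_iff₀ hr]; exact hy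
  unfold cf
  rw [min_eq_left (by linarith), max_eq_right zero_le_one]

theorem cf_zero {x : V} {r : ℝ} (hr : 0 < r) {y : V} (hy : y ∉ closedBall x (7 * r)) : cf x r y = 0 := by
  rw [mem_closedBall, dist_eq_norm, not_le] at hy
  have h1 : 7 ≤ ‖y - x‖ / r := by rw [le_div_iff₀ hr]; exact hy.le
  unfold cf
  rw [max_eq_left]
  exact (min_le_right _ _).trans (by linarith)

theorem mor_cut {f : V → ℝ} (hc : Continuous f) {K ρ r : ℝ} {x : V} (hK : 0 ≤ K) (hr : 0 < r) (hρ : 7 * r ≤ ρ)
    (hM : MorB K x ρ f) : Mor K (8 * r) (fun y => cf x r y * f y) := by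
  intro z t ht _
  obtain ⟨z', t', h1, h2, h3, h4⟩ := cube_inter x z ht (by positivity : 0 < 7 * r)
  have hgc : Continuous fun y => |cf x r y * f y| := ((cf_cont x r).mul hc).abs
  have e1 : ∫ y in closedBall z t, |cf x r y * f y| = ∫ y in closedBall z t ∩ closedBall x (7 * r), |cf x r y * f y| := by
    refine setIntegral_eq_of_subset_of_forall_sdiff_eq_zero measurableSet_closedBall inter_subset_left ?_
    rintro y ⟨hy1, hy2⟩
    have : y ∉ closedBall x (7 * r) := fun h => hy2 ⟨hy1, h⟩
    rw [cf_zero hr this, zero_mul, abs_zero]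
  rw [e1]
  refine (setIntegral_mono_set (integrableOn_ball hgc z' t') (Eventually.of_forall fun y => abs_nonneg _)
    (Eventually.of_forall h4)).trans ?_
  have h5 : ∫ y in closedBall z' t', |cf x r y * f y| ≤ ∫ y in closedBall z' t', |f y| := by
    refine setIntegral_mono_on (integrableOn_ball hgc z' t') (integrableOn_ball hc.abs z' t')
      measurableSet_closedBall fun y _ => ?_
    rw [abs_mul, abs_of_nonneg (cf_nonneg x r y)]
    exact mul_le_of_le_one_left (abs_nonneg _) (cf_le x r y)
  exact h5.trans ((hM z' t' h1 (h3.trans hρ)).trans (mul_le_mul_of_nonneg_left h2 hK))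

/-- local form of the near estimate -/
theorem nearL (hNear : StmNear) : ∀ K A δ : ℝ, 0 ≤ K → 0 ≤ A → 0 < δ → ∃ C : ℝ, 0 ≤ C ∧
  ∀ (r ρ : ℝ) (f : V → ℝ) (x : V), 0 < r → 7 * r ≤ ρ → Continuous f → (∀ y, 0 ≤ f y) → MorB K x ρ f →
    (∫ y in closedBall x (4 * r), (pot r f y + A / r) ^ 2) / r ^ 2
      + (∫ y in closedBall x (4 * r), (pot r f y + A / r) *
          pot r (fun z => f z * (pot r f z + A / r)) y) / r
      + (∫ y in closedBall x (4 * r), f y * (pot r f y + A / r)) / r
      ≤ δ * (∫ y in closedBall x (8 * r), f y ^ 2) + C / r := by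
  intro K A δ hK hA hδ
  obtain ⟨C, hC, h⟩ := hNear K A δ hK hA hδ
  refine ⟨C, hC, ?_⟩
  intro r ρ f x hr hρ hf hf0 hM
  set g : V → ℝ := fun y => cf x r y * f y with hg
  have hgc : Continuous g := (cf_cont x r).mul hf
  have hg0 : ∀ y, 0 ≤ g y := fun y => mul_nonneg (cf_nonneg x r y) (hf0 y)
  have h1 := h r g hr hgc hg0 (mor_cut hf hK hr hρ hM) x
  have e0 : ∀ y ∈ closedBall x (6 * r), g y = f y := by
    intro y hy
    rw [hg]
    simp only
    rw [cf_one hr hy, one_mul]
  have e1 : ∀ y ∈ closedBall x (5 * r), pot r g y = pot r f y := by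
    intro y hy
    refine pot_congrL fun z hz => e0 _ ?_
    have := mem_add hy hz
    rwa [show 5 * r + r = 6 * r by ring] at this
  have s54 : closedBall x (4 * r) ⊆ closedBall x (5 * r) := closedBall_subset_closedBall (by linarith)
  have s64 : closedBall x (4 * r) ⊆ closedBall x (6 * r) := closedBall_subset_closedBall (by linarith)
  have s65 : closedBall x (5 * r) ⊆ closedBall x (6 * r) := closedBall_subset_closedBall (by linarith)
  have e2 : ∀ y ∈ closedBall x (4 * r), pot r (fun z => g z * (pot r g z + A / r)) y =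
      pot r (fun z => f z * (pot r f z + A / r)) y := by
    intro y hy
    refine pot_congrL fun z hz => ?_
    have h2 := mem_add hy hz
    rw [show 4 * r + r = 5 * r by ring] at h2
    rw [e1 _ h2, e0 _ (s65 h2)]
  have i1 : ∫ y in closedBall x (4 * r), (pot r g y + A / r) ^ 2 = ∫ y in closedBall x (4 * r), (pot r f y + A / r) ^ 2 := by
    refine setIntegral_congr_fun measurableSet_closedBall fun y hy => ?_
    beta_reduce
    rw [e1 y (s54 hy)]
  have i2 : ∫ y in closedBall x (4 * r), (pot r g y + A / r) * pot r (fun z => g z * (pot r g z + A / r)) y =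
      ∫ y in closedBall x (4 * r), (pot r f y + A / r) * pot r (fun z => f z * (pot r f z + A / r)) y := by
    refine setIntegral_congr_fun measurableSet_closedBall fun y hy => ?_
    beta_reduce
    rw [e1 y (s54 hy), e2 y hy]
  have i3 : ∫ y in closedBall x (4 * r), g y * (pot r g y + A / r) =
      ∫ y in closedBall x (4 * r), f y * (pot r f y + A / r) := by
    refine setIntegral_congr_fun measurableSet_closedBall fun y hy => ?_
    beta_reduce
    rw [e1 y (s54 hy), e0 y (s64 hy)]
  have i4 : ∫ y in closedBall x (8 * r), g y ^ 2 ≤ ∫ y in closedBall x (8 * r), f y ^ 2 := by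
    refine setIntegral_mono_on (integrableOn_ball (hgc.pow 2) _ _) (integrableOn_ball (hf.pow 2) _ _)
      measurableSet_closedBall fun y _ => ?_
    refine pow_le_pow_left₀ (hg0 y) ?_ 2
    exact mul_le_of_le_one_left (hf0 y) (cf_le x r y)
  rw [i1, i2, i3] at h1
  have := mul_le_mul_of_nonneg_left i4 hδ.le
  linarith

theorem pot_const_mul (c : ℝ) (hc : 0 ≤ c) (f : V → ℝ) (s : ℝ) (x : V) : pot s (fun y => c * f y) x = c * pot s f x := by
  unfold pot
  rw [← integral_const_mul]
  refine integral_congr_ae (Eventually.of_forall fun z => ?_)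
  show |c * f (x + z)| / ‖z‖ ^ 2 = c * (|f (x + z)| / ‖z‖ ^ 2)
  rw [abs_mul, abs_of_nonneg hc]
  ring

/-- the near estimate with the square of the Morrey constant in the main term -/
theorem nearS (hNear : StmNear) : ∀ δ K₁ : ℝ, 0 < δ → 0 < K₁ → ∃ C : ℝ, 0 ≤ C ∧
  ∀ (K r ρ : ℝ) (f : V → ℝ) (x : V), 0 < K → K ≤ K₁ → 0 < r → 7 * r ≤ ρ → Continuous f → (∀ y, 0 ≤ f y) →
    MorB K x ρ f →
    (∫ y in closedBall x (4 * r), (pot r f y + 2 * K / r) ^ 2) / r ^ 2
      + (∫ y in closedBall x (4 * r), (pot r f y + 2 * K / r) *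
          pot r (fun z => f z * (pot r f z + 2 * K / r)) y) / r
      + (∫ y in closedBall x (4 * r), f y * (pot r f y + 2 * K / r)) / r
      ≤ δ * (∫ y in closedBall x (8 * r), f y ^ 2) + C * K ^ 2 / r := by
  intro δ K₁ hδ hK₁
  obtain ⟨C, hC, h⟩ := nearL hNear 1 2 (δ / (1 + K₁)) zero_le_one (by norm_num) (by positivity)
  refine ⟨(1 + K₁) * C, by positivity, ?_⟩
  intro K r ρ f x hK hKK hr hρ hf hf0 hM
  set g : V → ℝ := fun y => K⁻¹ * f y with hg
  have hK' : 0 ≤ K⁻¹ := by positivity
  have hgc : Continuous g := continuous_const.mul hf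
  have hg0 : ∀ y, 0 ≤ g y := fun y => mul_nonneg hK' (hf0 y)
  have hfg : ∀ y, f y = K * g y := by
    intro y
    rw [hg]
    simp only
    field_simp
  have hgM : MorB 1 x ρ g := by
    intro z t ht hzt
    have h1 := hM z t ht hzt
    have e : ∀ y, |g y| = K⁻¹ * |f y| := fun y => by
      rw [hg]
      simp only
      rw [abs_mul, abs_of_nonneg hK']
    simp only [e]
    rw [integral_const_mul]
    calc K⁻¹ * ∫ y in closedBall z t, |f y| ≤ K⁻¹ * (K * t) := mul_le_mul_of_nonneg_left h1 hK'
      _ = 1 * t := by field_simp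
  have h1 := h r ρ g x hr hρ hgc hg0 hgM
  have p1 : ∀ y, pot r f y + 2 * K / r = K * (pot r g y + 2 / r) := by
    intro y
    have : pot r f y = K * pot r g y := by
      rw [← pot_const_mul K hK.le]
      congr 1
      funext y
      exact hfg y
    rw [this]
    ring
  have p2 : ∀ y, pot r (fun z => f z * (pot r f z + 2 * K / r)) y =
      K ^ 2 * pot r (fun z => g z * (pot r g z + 2 / r)) y := by
    intro y
    rw [← pot_const_mul (K ^ 2) (by positivity)]
    congr 1
    funext z
    rw [p1, hfg]
    ring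
  have i1 : ∫ y in closedBall x (4 * r), (pot r f y + 2 * K / r) ^ 2 =
      K ^ 2 * ∫ y in closedBall x (4 * r), (pot r g y + 2 / r) ^ 2 := by
    rw [← integral_const_mul]
    refine integral_congr_ae (Eventually.of_forall fun y => ?_)
    beta_reduce
    rw [p1]
    ring
  have i2 : ∫ y in closedBall x (4 * r), (pot r f y + 2 * K / r) * pot r (fun z => f z * (pot r f z + 2 * K / r)) y =
      K ^ 3 * ∫ y in closedBall x (4 * r), (pot r g y + 2 / r) * pot r (fun z => g z * (pot r g z + 2 / r)) y := by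
    rw [← integral_const_mul]
    refine integral_congr_ae (Eventually.of_forall fun y => ?_)
    beta_reduce
    rw [p2, p1]
    ring
  have i3 : ∫ y in closedBall x (4 * r), f y * (pot r f y + 2 * K / r) =
      K ^ 2 * ∫ y in closedBall x (4 * r), g y * (pot r g y + 2 / r) := by
    rw [← integral_const_mul]
    refine integral_congr_ae (Eventually.of_forall fun y => ?_)
    beta_reduce
    rw [p1, hfg y]
    ring
  have i4 : ∫ y in closedBall x (8 * r), g y ^ 2 = (K ^ 2)⁻¹ * ∫ y in closedBall x (8 * r), f y ^ 2 := by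
    rw [← integral_const_mul]
    refine integral_congr_ae (Eventually.of_forall fun y => ?_)
    beta_reduce
    rw [hfg y]
    field_simp
  have hw0 : ∀ y, 0 ≤ pot r g y + 2 / r := fun y => add_nonneg (pot_nonneg _ _ _) (by positivity)
  have t1 : 0 ≤ (∫ y in closedBall x (4 * r), (pot r g y + 2 / r) ^ 2) / r ^ 2 :=
    div_nonneg (integral_nonneg fun y => sq_nonneg _) (by positivity)
  have t2 : 0 ≤ (∫ y in closedBall x (4 * r), (pot r g y + 2 / r) *
      pot r (fun z => g z * (pot r g z + 2 / r)) y) / r :=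
    div_nonneg (integral_nonneg fun y => mul_nonneg (hw0 y) (pot_nonneg _ _ _)) hr.le
  have t3 : 0 ≤ (∫ y in closedBall x (4 * r), g y * (pot r g y + 2 / r)) / r :=
    div_nonneg (integral_nonneg fun y => mul_nonneg (hg0 y) (hw0 y)) hr.le
  rw [i1, i2, i3]
  rw [i4] at h1
  set T1 := (∫ y in closedBall x (4 * r), (pot r g y + 2 / r) ^ 2) / r ^ 2 with hT1
  set T2 := (∫ y in closedBall x (4 * r), (pot r g y + 2 / r) *
      pot r (fun z => g z * (pot r g z + 2 / r)) y) / r with hT2
  set T3 := (∫ y in closedBall x (4 * r), g y * (pot r g y + 2 / r)) / r with hT3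
  set F := ∫ y in closedBall x (8 * r), f y ^ 2
  have hF : 0 ≤ F := integral_nonneg fun y => sq_nonneg _
  have e1 : K ^ 2 * (∫ y in closedBall x (4 * r), (pot r g y + 2 / r) ^ 2) / r ^ 2 = K ^ 2 * T1 := by
    rw [hT1]; ring
  have e2 : K ^ 3 * (∫ y in closedBall x (4 * r), (pot r g y + 2 / r) *
      pot r (fun z => g z * (pot r g z + 2 / r)) y) / r = K ^ 3 * T2 := by
    rw [hT2]; ring
  have e3 : K ^ 2 * (∫ y in closedBall x (4 * r), g y * (pot r g y + 2 / r)) / r = K ^ 2 * T3 := by
    rw [hT3]; ring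
  rw [e1, e2, e3]
  have h2 : K ^ 2 * T1 + K ^ 3 * T2 + K ^ 2 * T3 ≤ K ^ 2 * (1 + K₁) * (T1 + T2 + T3) := by
    have a1 : K ^ 2 * T1 ≤ K ^ 2 * (1 + K₁) * T1 := by
      apply mul_le_mul_of_nonneg_right _ t1
      have : 0 ≤ K ^ 2 := by positivity
      nlinarith
    have a2 : K ^ 3 * T2 ≤ K ^ 2 * (1 + K₁) * T2 := by
      apply mul_le_mul_of_nonneg_right _ t2
      have : 0 ≤ K ^ 2 := by positivity
      have e : K ^ 3 = K ^ 2 * K := by ring
      rw [e]
      apply mul_le_mul_of_nonneg_left _ this
      linarith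
    have a3 : K ^ 2 * T3 ≤ K ^ 2 * (1 + K₁) * T3 := by
      apply mul_le_mul_of_nonneg_right _ t3
      have : 0 ≤ K ^ 2 := by positivity
      nlinarith
    linarith
  refine h2.trans ?_
  calc K ^ 2 * (1 + K₁) * (T1 + T2 + T3) ≤ K ^ 2 * (1 + K₁) * (δ / (1 + K₁) * ((K ^ 2)⁻¹ * F) + C / r) :=
        mul_le_mul_of_nonneg_left h1 (by positivity)
    _ = δ * F + (1 + K₁) * C * K ^ 2 / r := by
        field_simp

end Pool.Agent.Q16.CL
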