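import Pool.Agent.Q85.CL.Defs3
import Pool.Agent.Q128.CC.Ana

set_option autoImplicit false

/-! Project CL (helper85), job CL-AN2: the vorticity along a segment of good points is analytic. -/

namespace Pool.Agent.Q16.CL

open MeasureTheory Set Metric Filter Topology
open scoped ContDiff
open H459R3.NS Pool.Agent.W268.NS Pool.Agent.Q67.VD Pool.Agent.Q85.CC Pool.Agent.Q85.CL Pool.Agent.Q128.CC

/-- the Taylor polynomials of a chain -/
noncomputable def TP (N : ℕ) (F : ℕ → ℝ → ℝ) (a : ℝ) (n : ℕ) (t : ℝ) : ℝ :=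
  ∑ k ∈ Finset.range (N + 1 - n), F (k + n) a * (t - a) ^ k / k.factorial

theorem poly_deriv (m : ℕ) (f : ℕ → ℝ) (a t : ℝ) :
    HasDerivAt (fun t : ℝ => ∑ k ∈ Finset.range m, f k * (t - a) ^ k / k.factorial)
      (∑ k ∈ Finset.range (m - 1), f (k + 1) * (t - a) ^ k / k.factorial) t := by
  rcases m with _ | m
  · simp only [Finset.range_zero, Finset.sum_empty, Nat.zero_sub]
    exact hasDerivAt_const t 0
  · have h1 : ∀ k ∈ Finset.range (m + 1), HasDerivAt (fun t : ℝ => f k * (t - a) ^ k / k.factorial)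
        (f k * (k * (t - a) ^ (k - 1) * 1) / k.factorial) t := fun k _ =>
      (((hasDerivAt_id t).sub_const a).pow k |>.const_mul (f k)).div_const _
    have h2 := HasDerivAt.fun_sum h1
    refine h2.congr_deriv ?_
    rw [Finset.sum_range_succ', Nat.add_sub_cancel]
    simp only [Nat.cast_zero, zero_mul, mul_zero, zero_div, add_zero, Nat.add_sub_cancel]
    apply Finset.sum_congr rfl
    intro k _
    rw [Nat.factorial_succ]
    push_cast
    have h3 : ((k : ℝ) + 1) ≠ 0 := by positivity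
    have h4 : (k.factorial : ℝ) ≠ 0 := by positivity
    field_simp

theorem TP_chain (N : ℕ) (F : ℕ → ℝ → ℝ) (a : ℝ) : Chain (TP N F a) := by
  intro n t
  have h := poly_deriv (N + 1 - n) (fun k => F (k + n) a) a t
  unfold TP
  refine h.congr_deriv ?_
  rw [show N + 1 - (n + 1) = N + 1 - n - 1 by omega]
  apply Finset.sum_congr rfl
  intro k _
  rw [show k + (n + 1) = k + 1 + n by ring]

theorem TP_self {N n : ℕ} (hn : n ≤ N) (F : ℕ → ℝ → ℝ) (a : ℝ) : TP N F a n a = F n a := by
  unfold TP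
  obtain ⟨m, hm⟩ : ∃ m, N + 1 - n = m + 1 := ⟨N - n, by omega⟩
  rw [hm, Finset.sum_range_succ']
  simp

theorem taylor_right (N : ℕ) (F : ℕ → ℝ → ℝ) (a b M : ℝ) (hF : Chain F) (hM : 0 ≤ M)
    (h : ∀ t ∈ Icc a b, |F (N + 1) t| ≤ M) : ∀ t ∈ Icc a b,
    |F 0 t - ∑ k ∈ Finset.range (N + 1), F k a * (t - a) ^ k / k.factorial| ≤ M * (t - a) ^ (N + 1) / (N + 1).factorial := by
  intro t ht
  have hG : Chain (fun n t => F n t - TP N F a n t) := fun n t => (hF n t).sub (TP_chain N F a n t)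
  have h1 := taylor_bd N _ a b 0 M hG le_rfl hM (by
    intro k hk
    show |F k a - TP N F a k a| ≤ 0
    rw [TP_self hk, sub_self, abs_zero]) (by
    intro s hs
    have : TP N F a (N + 1) s = 0 := by unfold TP; simp
    show |F (N + 1) s - TP N F a (N + 1) s| ≤ M
    rw [this, sub_zero]
    exact h s hs) t ht
  unfold maj at h1
  simp only [zero_mul, zero_add] at h1
  have e : TP N F a 0 t = ∑ k ∈ Finset.range (N + 1), F k a * (t - a) ^ k / k.factorial := by
    unfold TP
    rfl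
  rw [e] at h1
  exact h1

theorem refl_chain {F : ℕ → ℝ → ℝ} (hF : Chain F) (a : ℝ) : Chain (fun n t => (-1) ^ n * F n (2 * a - t)) := by
  intro n t
  have h1 : HasDerivAt (fun t : ℝ => 2 * a - t) (-1) t := by
    simpa using (hasDerivAt_id t).const_sub (2 * a)
  have h2 := ((hF n (2 * a - t)).comp t h1).const_mul ((-1) ^ n)
  exact h2.congr_deriv (by ring)

theorem taylor_two (N : ℕ) (F : ℕ → ℝ → ℝ) (a δ M : ℝ) (hF : Chain F) (hM : 0 ≤ M)
    (h : ∀ t, |t - a| ≤ δ → |F (N + 1) t| ≤ M) (t : ℝ) (ht : |t - a| ≤ δ) :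
    |F 0 t - ∑ k ∈ Finset.range (N + 1), F k a * (t - a) ^ k / k.factorial| ≤ M * |t - a| ^ (N + 1) / (N + 1).factorial := by
  rcases le_total a t with hat | hat
  · rw [abs_of_nonneg (sub_nonneg.2 hat)] at ht ⊢
    exact taylor_right N F a (a + δ) M hF hM (fun s hs => h s (by
      rw [abs_of_nonneg (sub_nonneg.2 hs.1)]; linarith [hs.2])) t ⟨hat, by linarith⟩
  · rw [abs_of_nonpos (sub_nonpos.2 hat)] at ht ⊢
    have h1 := taylor_right N (fun n t => (-1) ^ n * F n (2 * a - t)) a (a + δ) M (refl_chain hF a) hM (fun s hs => by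
      show |(-1) ^ (N + 1) * F (N + 1) (2 * a - s)| ≤ M
      rw [abs_mul, abs_pow, abs_neg, abs_one, one_pow, one_mul]
      apply h
      rw [abs_le]
      constructor <;> linarith [hs.1, hs.2]) (2 * a - t) ⟨by linarith, by linarith⟩
    simp only [pow_zero, one_mul] at h1
    rw [show 2 * a - (2 * a - t) = t by ring, show 2 * a - t - a = -(t - a) by ring, show 2 * a - a = a by ring] at h1
    have e : ∑ k ∈ Finset.range (N + 1), (-1) ^ k * F k a * (-(t - a)) ^ k / k.factorial =
        ∑ k ∈ Finset.range (N + 1), F k a * (t - a) ^ k / k.factorial := by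
      apply Finset.sum_congr rfl
      intro k _
      rw [neg_pow (t - a) k]
      have h3 : ((-1 : ℝ) ^ k) * (-1) ^ k = 1 := by rw [← mul_pow]; norm_num
      calc (-1) ^ k * F k a * ((-1) ^ k * (t - a) ^ k) / k.factorial =
            ((-1) ^ k * (-1) ^ k) * (F k a * (t - a) ^ k / k.factorial) := by ring
        _ = _ := by rw [h3, one_mul]
    rw [e] at h1
    exact h1

/-- analyticity from the bounds of the derivatives -/
theorem chain_analytic {F : ℕ → ℝ → ℝ} {a δ A B : ℝ} (hF : Chain F) (hδ : 0 < δ) (hA : 0 ≤ A) (hB : 0 ≤ B)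
    (h : ∀ n t, |t - a| ≤ δ → |F n t| ≤ A * B ^ n * n.factorial) : AnalyticAt ℝ (F 0) a := by
  obtain ⟨ε, hε0, hεδ, hεB⟩ : ∃ ε : ℝ, 0 < ε ∧ ε ≤ δ ∧ B * ε ≤ 1 / 2 := by
    refine ⟨min δ (1 / (2 * (B + 1))), lt_min hδ (by positivity), min_le_left _ _, ?_⟩
    calc B * min δ (1 / (2 * (B + 1))) ≤ B * (1 / (2 * (B + 1))) := mul_le_mul_of_nonneg_left (min_le_right _ _) hB
      _ = B / (B + 1) * (1 / 2) := by field_simp
      _ ≤ 1 * (1 / 2) := by
          apply mul_le_mul_of_nonneg_right _ (by norm_num)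
          rw [div_le_one (by linarith)]
          linarith
      _ = 1 / 2 := by norm_num
  refine ⟨FormalMultilinearSeries.ofScalars ℝ (fun n => F n a / n.factorial), ?_⟩
  rw [hasFPowerSeriesAt_iff]
  filter_upwards [Metric.ball_mem_nhds (0 : ℝ) hε0] with z hz
  rw [mem_ball_zero_iff, Real.norm_eq_abs] at hz
  have hBz : B * |z| ≤ 1 / 2 := (mul_le_mul_of_nonneg_left hz.le hB).trans hεB
  have hBz0 : 0 ≤ B * |z| := by positivity
  have hc : ∀ n : ℕ, z ^ n • (FormalMultilinearSeries.ofScalars ℝ (fun n => F n a / n.factorial)).coeff n =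
      F n a * z ^ n / n.factorial := by
    intro n
    rw [FormalMultilinearSeries.coeff_ofScalars, smul_eq_mul]
    ring
  simp_rw [hc]
  have hb : ∀ n : ℕ, ‖F n a * z ^ n / n.factorial‖ ≤ A * (1 / 2) ^ n := by
    intro n
    rw [Real.norm_eq_abs, abs_div, abs_mul, abs_pow, abs_of_pos (show (0 : ℝ) < n.factorial by positivity),
      div_le_iff₀ (by positivity)]
    calc |F n a| * |z| ^ n ≤ (A * B ^ n * n.factorial) * |z| ^ n := by
          gcongr
          exact h n a (by rw [sub_self, abs_zero]; exact hδ.le)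
      _ = A * (B * |z|) ^ n * n.factorial := by rw [mul_pow]; ring
      _ ≤ A * (1 / 2) ^ n * n.factorial := by gcongr
  have hs : Summable fun n : ℕ => F n a * z ^ n / n.factorial :=
    Summable.of_norm_bounded ((summable_geometric_of_lt_one (by norm_num) (by norm_num : (1 / 2 : ℝ) < 1)).mul_left A) hb
  rw [hs.hasSum_iff_tendsto_nat]
  rw [← tendsto_add_atTop_iff_nat 1]
  rw [tendsto_iff_norm_sub_tendsto_zero]
  refine squeeze_zero (fun _ => norm_nonneg _) (fun N => ?_) (g := fun N : ℕ => A * (1 / 2) ^ (N + 1)) ?_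
  · have h1 := taylor_two N F a δ (A * B ^ (N + 1) * (N + 1).factorial) hF (by positivity) (fun t ht => h (N + 1) t ht) (a + z)
      (by rw [add_sub_cancel_left]; linarith)
    rw [add_sub_cancel_left] at h1
    rw [norm_sub_rev, Real.norm_eq_abs]
    refine h1.trans ?_
    have e : A * B ^ (N + 1) * (N + 1).factorial * |z| ^ (N + 1) / (N + 1).factorial = A * (B * |z|) ^ (N + 1) := by
      have : ((N + 1).factorial : ℝ) ≠ 0 := by positivity
      rw [mul_pow]
      field_simp
    rw [e]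
    gcongr
  · have h1 : Tendsto (fun N : ℕ => A * (1 / 2 : ℝ) ^ (N + 1)) atTop (𝓝 (A * 0)) :=
      ((tendsto_pow_atTop_nhds_zero_of_lt_one (by norm_num) (by norm_num : (1 / 2 : ℝ) < 1)).comp
        (tendsto_add_atTop_nat 1)).const_mul A
    rwa [mul_zero] at h1

theorem comp_an {v : V → V} {x y : V} (hv : SM v) (hxy : x ≠ y)
    (h : ∀ s ∈ Icc (0 : ℝ) 1, ∃ c h : ℝ, 1 ≤ c ∧ 0 < h ∧ Gd c h v (x + s • (y - x))) (i j : Fin 3) {s : ℝ}
    (hs : s ∈ Icc (0 : ℝ) 1) : AnalyticAt ℝ (fun s : ℝ => cur i j v (x + s • (y - x))) s := by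
  obtain ⟨c, k, hc, hk, hG⟩ := h s hs
  have hf := cur_smooth hv i j
  set e := y - x with he
  have he0 : e ≠ 0 := by
    rw [he]; exact sub_ne_zero.2 (Ne.symm hxy)
  have hee : 0 < e ⬝ᵥ e := by
    have h1 : 0 ≤ e ⬝ᵥ e := by
      rw [dot3]; nlinarith [sq_nonneg (e 0), sq_nonneg (e 1), sq_nonneg (e 2)]
    rcases h1.eq_or_lt with h2 | h2
    · exfalso
      apply he0
      rw [dot3] at h2
      funext l
      fin_cases l <;> simp <;> nlinarith [sq_nonneg (e 0), sq_nonneg (e 1), sq_nonneg (e 2)]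
    · exact h2
  set ρ := √(e ⬝ᵥ e) with hρ
  have hρ0 : 0 < ρ := Real.sqrt_pos.2 hee
  have hρ2 : ρ * ρ = e ⬝ᵥ e := Real.mul_self_sqrt hee.le
  set d : V := ρ⁻¹ • e with hd
  have hdd : d ⬝ᵥ d = 1 := by
    rw [hd, smul_dotProduct, dotProduct_smul, smul_eq_mul, smul_eq_mul, ← hρ2]
    field_simp
  have hline : ∀ t : ℝ, x + (ρ * t) • d = x + t • e := by
    intro t
    rw [hd, smul_smul]
    congr 2
    field_simp
  have hch := ch_chain hf x d ρ
  have hδ : 0 < k / (2 * (‖e‖ + 1)) := by positivity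
  have hb : ∀ n t, |t - s| ≤ k / (2 * (‖e‖ + 1)) → |ch (cur i j v) x d ρ n t| ≤ (ρ ^ 2 * c / k ^ 2) * (ρ * c / k) ^ n * n.factorial := by
    intro n t ht
    have h1 : x + t • e ∈ ball (x + s • e) k := by
      rw [mem_ball, dist_eq_norm, add_sub_add_left_eq_sub, ← sub_smul, norm_smul, Real.norm_eq_abs]
      calc |t - s| * ‖e‖ ≤ k / (2 * (‖e‖ + 1)) * ‖e‖ := by gcongr
        _ = k * (‖e‖ / (2 * (‖e‖ + 1))) := by ring
        _ < k * 1 := by
            apply mul_lt_mul_of_pos_left _ hk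
            rw [div_lt_one (by positivity)]
            linarith [norm_nonneg e]
        _ = k := mul_one k
    have h2 := hG _ h1 n i j
    have h3 := dd_iter_sq d hdd n (cur i j v) hf (x + t • e)
    have h4 : |(dd d)^[n] (cur i j v) (x + t • e)| ≤ c ^ (n + 1) * n.factorial / k ^ (n + 2) :=
      abs_le_of_sq_le_sq (h3.trans h2) (by positivity)
    unfold ch
    rw [hline, abs_mul, abs_of_pos (by positivity : 0 < ρ ^ (n + 2))]
    calc ρ ^ (n + 2) * |(dd d)^[n] (cur i j v) (x + t • e)| ≤ ρ ^ (n + 2) * (c ^ (n + 1) * n.factorial / k ^ (n + 2)) := by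
          gcongr
      _ = _ := by
          rw [div_pow, mul_pow]
          field_simp
          ring
  have h5 := chain_analytic hch hδ (by positivity) (by positivity) hb
  have h6 : (fun s : ℝ => cur i j v (x + s • e)) = fun s => (ρ ^ 2)⁻¹ * ch (cur i j v) x d ρ 0 s := by
    funext t
    unfold ch
    rw [hline]
    simp only [Function.iterate_zero, id_eq, zero_add]
    field_simp
  rw [h6]
  exact analyticAt_const.mul h5

theorem segAn : StmSegAn := by
  intro v x y hv h s hs
  rcases eq_or_ne x y with rfl | hxy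
  · simp only [sub_self, smul_zero, add_zero]
    exact analyticAt_const
  · have e : (fun s : ℝ => vort v (x + s • (y - x))) = fun s i => (![fun s : ℝ => cur 1 2 v (x + s • (y - x)),
        fun s : ℝ => cur 2 0 v (x + s • (y - x)), fun s : ℝ => cur 0 1 v (x + s • (y - x))] : Fin 3 → ℝ → ℝ) i s := by
      funext t i
      fin_cases i <;> rfl
    rw [e]
    apply AnalyticAt.pi
    intro i
    fin_cases i
    · exact comp_an hv hxy h 1 2 hs
    · exact comp_an hv hxy h 2 0 hs
    · exact comp_an hv hxy h 0 1 hs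

end Pool.Agent.Q16.CL
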